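import Pool.Agent.W945.Pw.Stm

/-!
# Project PW (helper945): the low degree part is fooled exactly
-/

set_option autoImplicit false

namespace Pool.Agent.W688.Pw.LOW

open Finset Pool.Agent.W945.Pw

theorem sg_xor (a b : Bool) : sg (xor a b) = sg a * sg b := by
  cases a <;> cases b <;> simp [sg]

theorem chi_mix {n : ℕ} (S : Finset (Fin n)) (d t u : Fin n → Bool) :
    chi S (mix d t u) = chi S d * chi S (fun i => t i && u i) := by
  unfold chi mix
  rw [← Finset.prod_mul_distrib]
  exact Finset.prod_congr rfl fun i _ => sg_xor _ _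

theorem chi_empty {n : ℕ} (x : Fin n → Bool) : chi (∅ : Finset (Fin n)) x = 1 := by
  simp [chi]

theorem sum_chi {n : ℕ} (S : Finset (Fin n)) (hS : S.Nonempty) :
    ∑ u : Fin n → Bool, chi S u = 0 := by
  have h1 : ∀ u : Fin n → Bool, chi S u = ∏ i, (if i ∈ S then sg (u i) else 1) := by
    intro u
    unfold chi
    rw [Finset.prod_ite_mem, Finset.univ_inter]
  simp only [h1]
  have h2 := Finset.prod_univ_sum (fun _ : Fin n => (Finset.univ : Finset Bool))
    (fun i b => if i ∈ S then sg b else (1 : ℝ))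
  rw [Fintype.piFinset_univ] at h2
  rw [← h2]
  obtain ⟨i, hi⟩ := hS
  refine Finset.prod_eq_zero (Finset.mem_univ i) ?_
  simp only [if_pos hi, Fintype.sum_bool]
  simp [sg]

theorem avg_low {n k : ℕ} (hk : 1 ≤ k) (f : (Fin n → Bool) → ℝ) {Ω : Type} [Fintype Ω]
    [Nonempty Ω] (X : Ω → Fin n → Bool)
    (h : ∀ S : Finset (Fin n), S.Nonempty → S.card < k → ∑ ω, chi S (X ω) = 0) :
    avg (fun ω => low k f (X ω)) = avg f := by
  have hc : (Fintype.card Ω : ℝ) ≠ 0 := by
    have := Fintype.card_pos (α := Ω)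
    positivity
  have h0 : hat f ∅ = avg f := by
    unfold hat
    congr 1
    funext x
    rw [chi_empty, mul_one]
  have h1 : ∑ ω, low k f (X ω) = avg f * (Fintype.card Ω : ℝ) := by
    unfold low
    rw [Finset.sum_comm]
    rw [Finset.sum_eq_single (∅ : Finset (Fin n))]
    · simp only [chi_empty, mul_one, Finset.sum_const, Finset.card_univ, h0, nsmul_eq_mul]
      ring
    · intro S hS hne
      rw [← Finset.mul_sum, h S (Finset.nonempty_iff_ne_empty.2 hne) (Finset.mem_filter.1 hS).2,
        mul_zero]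
    · intro hn
      exact absurd (Finset.mem_filter.2 ⟨Finset.mem_univ _, by rw [Finset.card_empty]; omega⟩) hn
  have h2 : avg (fun ω => low k f (X ω)) = (∑ ω, low k f (X ω)) / (Fintype.card Ω : ℝ) := rfl
  rw [h2, h1, mul_div_assoc, div_self hc, mul_one]

theorem main : LOW.Stm := by
  intro n k f Ω₁ Ω₂ _ _ _ _ D T hk hD
  constructor
  · refine avg_low hk f (fun p : Ω₁ × Ω₂ × (Fin n → Bool) => mix (D p.1) (T p.2.1) p.2.2) ?_
    intro S hS hc
    rw [Fintype.sum_prod_type]
    have h1 : ∀ ω : Ω₁, ∑ y : Ω₂ × (Fin n → Bool), chi S (mix (D ω) (T y.1) y.2) =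
        chi S (D ω) * ∑ y : Ω₂ × (Fin n → Bool), chi S (fun i => T y.1 i && y.2 i) := by
      intro ω
      rw [Finset.mul_sum]
      exact Finset.sum_congr rfl fun y _ => chi_mix S _ _ _
    simp only [h1]
    rw [← Finset.sum_mul, hD S hS (by omega), zero_mul]
  · exact avg_low hk f (fun u : Fin n → Bool => u) (fun S hS _ => sum_chi S hS)

end Pool.Agent.W688.Pw.LOW
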