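import Pool.Agent.W945.Pw.Stm

/-!
# Project PW (helper945): the assembly of one round
-/

set_option autoImplicit false

namespace Pool.Agent.W688.Pw.STEP

open Finset Pool.Agent.W945.Pw

theorem avg_add {Ω : Type} [Fintype Ω] (f g : Ω → ℝ) :
    avg (fun ω => f ω + g ω) = avg f + avg g := by
  unfold avg
  rw [Finset.sum_add_distrib, add_div]

theorem avg_sum {Ω I : Type} [Fintype Ω] [Fintype I] (f : I → Ω → ℝ) :
    avg (fun ω => ∑ i, f i ω) = ∑ i, avg (f i) := by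
  unfold avg
  rw [Finset.sum_comm, Finset.sum_div]

theorem avg_dec {Ω I J : Type} [Fintype Ω] [Fintype I] [Fintype J] (f l : Ω → ℝ)
    (g : I → J → Ω → ℝ) (h : ∀ ω, f ω = l ω + ∑ i, ∑ j, g i j ω) :
    avg f = avg l + ∑ i, ∑ j, avg (g i j) := by
  have h1 : f = fun ω => l ω + (fun ω => ∑ i, ∑ j, g i j ω) ω := funext h
  rw [h1, avg_add, avg_sum (fun i ω => ∑ j, g i j ω)]
  congr 1
  exact Finset.sum_congr rfl fun i _ => avg_sum (g i)

theorem main : STEP.Stm := by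
  intro hF hP hS hT hL n w k ρ f Ω₁ Ω₂ _ _ _ _ D T hk hρ hf hD hTi
  obtain ⟨A, B, hA, hB, hdA, hdB, hfx⟩ := hS hF hP n w k ρ f hk hρ hf
  obtain ⟨l1, l2⟩ := hL n k f Ω₁ Ω₂ D T hk hD
  have e1 := avg_dec (fun p : Ω₁ × Ω₂ × (Fin n → Bool) => f (mix (D p.1) (T p.2.1) p.2.2))
    (fun p => low k f (mix (D p.1) (T p.2.1) p.2.2))
    (fun (v : Fin n) (i : Fin w) p => top k ρ v (A v i) (mix (D p.1) (T p.2.1) p.2.2) *
      B v i (mix (D p.1) (T p.2.1) p.2.2)) (fun p => hfx _)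
  rw [e1, l1, add_sub_cancel_left]
  have h2 : ∀ (v : Fin n) (i : Fin w), |avg (fun p : Ω₁ × Ω₂ × (Fin n → Bool) =>
      top k ρ v (A v i) (mix (D p.1) (T p.2.1) p.2.2) * B v i (mix (D p.1) (T p.2.1) p.2.2))| ≤
        1 / Real.sqrt (2 ^ k) := fun v i =>
    (hT hF hP n k ρ v (A v i) (B v i) Ω₁ Ω₂ D T hk (hA v i) (hB v i) (hdA v i) (hdB v i) hD hTi).1
  refine (Finset.abs_sum_le_sum_abs _ _).trans ?_
  refine (Finset.sum_le_sum fun v _ => (Finset.abs_sum_le_sum_abs _ _).trans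
    (Finset.sum_le_sum fun i _ => h2 v i)).trans ?_
  simp only [Finset.sum_const, Finset.card_univ, Fintype.card_fin, nsmul_eq_mul]
  apply le_of_eq
  ring

end Pool.Agent.W688.Pw.STEP
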